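import Pool.Agent.H122R3.SX.Wed

/-!
Critical self-avoiding walk on the square lattice in an arbitrary bounded set `D` of vertices:
if `a` and `b` are joined in `T ⊆ D` by a chain of wedges (the apexes `a`, `b` may be on the
boundary of `D`), then the walk stays in `T` with at least quasi-polynomial probability.
-/

set_option autoImplicit false

namespace Pool.Agent.Results.MP_aad444_pr.Wedges

open scoped ENNReal

/-- Adjacency in the square lattice. -/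
def Nbr (p q : ℤ × ℤ) : Prop := |p.1 - q.1| + |p.2 - q.2| = 1

/-- The `n`-step self-avoiding walks started at the origin. -/
def walks (n : ℕ) : Set (Fin (n + 1) → ℤ × ℤ) :=
  {w | w 0 = 0 ∧ Function.Injective w ∧ ∀ i : Fin n, Nbr (w i.castSucc) (w i.succ)}

/-- The connective constant: the infimum of `c_n ^ (1 / n)`, where `c_n` is the number of `n`-step
self-avoiding walks. -/
noncomputable def mu : ℝ :=
  ⨅ n : {n : ℕ // 1 ≤ n}, (((walks n.1).ncard : ℝ) ^ ((1 : ℝ) / (n.1 : ℝ)))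

/-- The self-avoiding walks from `a` to `b` in `D`, as lists of vertices. -/
def Traj (D : Set (ℤ × ℤ)) (a b : ℤ × ℤ) : Set (List (ℤ × ℤ)) :=
  {l | l.head? = some a ∧ l.getLast? = some b ∧ l.Nodup ∧ l.IsChain Nbr ∧ ∀ p ∈ l, p ∈ D}

/-- The critical partition function: the sum of `mu ^ (- number of steps)` over the walks. -/
noncomputable def Z (D : Set (ℤ × ℤ)) (a b : ℤ × ℤ) : ℝ≥0∞ :=
  ∑' l : Traj D a b, ENNReal.ofReal (1 / mu) ^ (l.1.length - 1)

/-- The probability that the critical walk in `D` from `a` to `b` stays in `T`. -/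
noncomputable def P (D : Set (ℤ × ℤ)) (a b : ℤ × ℤ) (T : Set (ℤ × ℤ)) : ℝ≥0∞ :=
  Z (D ∩ T) a b / Z D a b

/-- The wedge `|x| ≤ η y`, `0 ≤ y ≤ H`. -/
def wedge (η : ℝ) (H : ℤ) : Set (ℤ × ℤ) := {p | |(p.1 : ℝ)| ≤ η * p.2 ∧ 0 ≤ p.2 ∧ p.2 ≤ H}

/-- For some symmetry `φ` of the lattice (translations, rotations, reflections) and some `ℓ ≤ L`
one has `p = φ (0, 0)`, `q = φ (0, ℓ)` and `φ (wedge η ℓ) ⊆ T`: `p` is the apex and `q` the
midpoint of the base of a wedge in `T`. -/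
def Wed (T : Set (ℤ × ℤ)) (η : ℝ) (L : ℕ) (p q : ℤ × ℤ) : Prop :=
  ∃ (φ : ℤ × ℤ → ℤ × ℤ) (ℓ : ℕ), Function.Bijective φ ∧ (∀ a b, Nbr (φ a) (φ b) ↔ Nbr a b) ∧
    ℓ ≤ L ∧ φ (0, 0) = p ∧ φ (0, ℓ) = q ∧ ∀ z ∈ wedge η ℓ, φ z ∈ T

/-- **Theorem.** For all `η > 0`, `M` and `k` there is `K` such that for all `L ≥ 2`, all
`T ⊆ D ⊆ [-M L, M L]²` and all points `p 0, …, p (k + 1)` such that of `p i` and `p (i + 1)` one is
the apex and the other the midpoint of the base of a wedge of opening `η` in `T`: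
`exp (- K (log L)^6) ≤ Z_D (p 0, p (k + 1)) ≤ exp (K (log L)^6)`, and the critical self-avoiding
walk in `D` from `p 0` to `p (k + 1)` stays in `T` with probability at least
`exp (- K (log L)^6)`. -/
theorem result (η M : ℝ) (hη : 0 < η) (k : ℕ) : ∃ K : ℝ, ∀ L : ℕ, 2 ≤ L →
    ∀ T D : Set (ℤ × ℤ), T ⊆ D → (∀ p ∈ D, |(p.1 : ℝ)| ≤ M * L ∧ |(p.2 : ℝ)| ≤ M * L) →
      ∀ p : ℕ → ℤ × ℤ, (∀ i ≤ k, Wed T η L (p i) (p (i + 1)) ∨ Wed T η L (p (i + 1)) (p i)) →
        ENNReal.ofReal (Real.exp (-(K * Real.log L ^ 6))) ≤ Z D (p 0) (p (k + 1)) ∧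
        Z D (p 0) (p (k + 1)) ≤ ENNReal.ofReal (Real.exp (K * Real.log L ^ 6)) ∧
        ENNReal.ofReal (Real.exp (-(K * Real.log L ^ 6))) ≤ P D (p 0) (p (k + 1)) T :=
  Pool.Agent.H122R3.SZ.final3 η M hη k

end Pool.Agent.Results.MP_aad444_pr.Wedges
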